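import Mathlib
import Pool.Agent.H24.CircuitDefs
import Pool.Agent.H24.CircuitProof

/-!
# A counterexample to the extension of faithful circuit covers across a 5-circuit

The graph is a cubic graph on 18 vertices (a dot product of two Petersen graphs).  The edges of
weight 2 form a perfect matching.
-/

open SimpleGraph Pool.Agent.H24.CircuitDefs

namespace Pool.Agent.Results.MP_6dc06d_co.FiveCircuitCounterexample

/-- There is a cubic graph `G` (on 18 vertices) with an eulerian weight `w` with values in
`{1, 2}`, an edge `e₀` of weight 2 and a circuit `C₀` with exactly 5 edges in which `e₀` is the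
only edge of weight 2, such that `(G - e₀, w)` has a faithful circuit cover but `(G, w)` has
none. -/
theorem result :
    ∃ (G : SimpleGraph (Fin 18)) (w : Sym2 (Fin 18) → ℕ) (e₀ : Sym2 (Fin 18)) (C₀ : G.Subgraph),
      IsCubic G ∧ (∀ e ∈ G.edgeSet, w e = 1 ∨ w e = 2) ∧ IsEulerian G w ∧
      e₀ ∈ G.edgeSet ∧ w e₀ = 2 ∧
      IsCircuit C₀ ∧ C₀.edgeSet.ncard = 5 ∧ e₀ ∈ C₀.edgeSet ∧
      (∀ e ∈ C₀.edgeSet, w e = 2 → e = e₀) ∧
      HasFaithfulCircuitCover (G.deleteEdges {e₀}) w ∧
      ¬ HasFaithfulCircuitCover G w :=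
  Pool.Agent.H24.CircuitProof.main

end Pool.Agent.Results.MP_6dc06d_co.FiveCircuitCounterexample
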